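import Pool.Agent.TH188.WQ.Defs
import Pool.Agent.W216.WD.Ppr

/-! WQ-PPR (owner helper90): principalization, with the lifting of logarithmic tangent vectors. -/

set_option autoImplicit false
set_option linter.unusedVariables false
set_option linter.unusedSectionVars false

universe u

open Polynomial

namespace Pool.Agent.TH90.WQ.Ppr

open Pool.Agent.W558 Pool.Agent.TH188.WQ Pool.Agent.W216.WD.Ppr

section trans

variable {k N : Type u} [Field k] [Field N] [Algebra k N] {T T' T'' I I' I'' : Type}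

/-- Composition of logarithmic modifications. -/
theorem OvP.trans [Fintype I] [Fintype I'] [Fintype I''] {M : LM (⊥ : Subalgebra k N) ⊤ T I}
    {y : T → N} {M' : LM (⊥ : Subalgebra k N) ⊤ T' I'} {y' : T' → N}
    {M'' : LM (⊥ : Subalgebra k N) ⊤ T'' I''} {y'' : T'' → N} {π : T' → T} {Θ : I' → I → ℤ}
    {π' : T'' → T'} {Θ' : I'' → I' → ℤ} (h1 : OvP M y M' y' π Θ) (h2 : OvP M' y' M'' y'' π' Θ') :
    OvP M y M'' y'' (fun t => π (π' t)) (fun i'' i => ∑ i', Θ' i'' i' * Θ i' i) := by
  refine ⟨fun t => (h1.le (π' t)).trans (h2.le t), ?_, ?_, ?_⟩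
  · intro t i
    rw [h1.x (π' t) i]
    have e1 : ∀ i', M'.x (π' t) i' ^ Θ i' i = ∏ i'', M''.x t i'' ^ (Θ' i'' i' * Θ i' i) := by
      intro i'
      rw [h2.x t i', ← Finset.prod_zpow]
      exact Finset.prod_congr rfl fun i'' _ => (zpow_mul _ _ _).symm
    rw [Finset.prod_congr rfl fun i' _ => e1 i', Finset.prod_comm]
    refine Finset.prod_congr rfl fun i'' _ => ?_
    have e2 : ∀ s : Finset I', ∏ i' ∈ s, M''.x t i'' ^ (Θ' i'' i' * Θ i' i) =
        M''.x t i'' ^ (∑ i' ∈ s, Θ' i'' i' * Θ i' i) := by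
      classical
      intro s
      induction s using Finset.induction_on with
      | empty => simp
      | insert a s ha ih =>
        rw [Finset.prod_insert ha, Finset.sum_insert ha, ih, zpow_add₀ (M''.x0 t i'')]
    exact e2 _
  · intro i'' i
    exact Finset.sum_nonneg fun i' _ => mul_nonneg (h2.Θ0 _ _) (h1.Θ0 _ _)
  · intro t κ _ _ φ v
    obtain ⟨v', hv1, hv2⟩ := h1.lt (π' t) κ (φ.comp (Subalgebra.inclusion (h2.le t))) v
    obtain ⟨v'', hw1, hw2⟩ := h2.lt t κ φ v'
    refine ⟨v'', ?_, ?_⟩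
    · intro a ha
      rw [← hv1 a ha]
      exact hw1 a (h1.le (π' t) ha)
    · intro i
      rw [← hv2 i]
      have e1 : ∀ i' : I', (Θ i' i : κ) * v'.e (some i') =
          ∑ i'', ((Θ' i'' i' * Θ i' i : ℤ) : κ) * v''.e (some i'') := by
        intro i'
        rw [← hw2 i', Finset.mul_sum]
        refine Finset.sum_congr rfl fun i'' _ => ?_
        push_cast
        ring
      rw [Finset.sum_congr rfl fun i' _ => e1 i', Finset.sum_comm]
      refine Finset.sum_congr rfl fun i'' _ => ?_
      rw [← Finset.sum_mul]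
      push_cast
      rfl

lemma exp_trans {p : ℕ} [Fintype I] [Fintype I'] {Θ : I' → I → ℤ} {Θ' : I'' → I' → ℤ}
    {c μ : I → ℤ} {c' μ' : I' → ℤ} {c'' μ'' : I'' → ℤ}
    (h1 : ∀ i', c' i' + p * μ' i' = ∑ i, Θ i' i * (c i + p * μ i))
    (h2 : ∀ i'', c'' i'' + p * μ'' i'' = ∑ i', Θ' i'' i' * (c' i' + p * μ' i')) (i'' : I'') :
    c'' i'' + p * μ'' i'' = ∑ i, (∑ i', Θ' i'' i' * Θ i' i) * (c i + p * μ i) := by
  rw [h2 i'']
  rw [Finset.sum_congr rfl fun i' _ => by rw [h1 i', Finset.mul_sum]]
  rw [Finset.sum_comm]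
  refine Finset.sum_congr rfl fun i _ => ?_
  rw [Finset.sum_mul]
  exact Finset.sum_congr rfl fun i' _ => by ring

end trans

section fin

variable {k N : Type u} [Field k] [Field N] [Algebra k N] {p : ℕ} {T I G : Type}

/-- No bad pairs. -/
theorem fin2 [Finite T] [Fintype I] (M : LM (⊥ : Subalgebra k N) ⊤ T I) (F : N)
    (Q : Subalgebra k N) (y h : T → N) (c μ : I → ℤ) (g : G → N) (Γ : G → I → ℤ)
    (hp : 0 < p) (hPS : PS p M F Q y h c μ) (hL : Lq M Q) (hF : Fn M g Γ)
    (hno : ∀ q, ¬ BadP p M y c q) :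
    ∃ (T' I' : Type) (_ : Finite T') (_ : Fintype I') (M' : LM (⊥ : Subalgebra k N) ⊤ T' I')
    (y' : T' → N) (c' μ' : I' → ℤ) (Γ' : G → I' → ℤ) (π : T' → T) (Θ : I' → I → ℤ),
    PS p M' F Q y' (fun t' => h (π t')) c' μ' ∧ Lq M' Q ∧ Fn M' g Γ' ∧ Fin2 M' y' c' ∧
    OvP M y M' y' π Θ ∧ ∀ i', c' i' + p * μ' i' = ∑ i, Θ i' i * (c i + p * μ i) := by
  classical
  let s : Bool → Finset I := fun e =>
    if e then Finset.univ.filter (fun l => 0 < c l) else
      Finset.univ.filter (fun l => c l < 0)
  let h' : T → Bool → N := fun t e => (if e then 1 else y t) * ∏ l ∈ s e, M.x t l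
  have hmem : ∀ t e, h' t e ∈ M.A t := by
    intro t e
    refine (M.A t).mul_mem ?_ ((M.A t).prod_mem fun l _ => M.xA t l)
    split_ifs
    · exact (M.A t).one_mem
    · exact hPS.yA t
  have hne : ∀ t e, h' t e ≠ 0 := by
    intro t e
    refine mul_ne_zero ?_ (Finset.prod_ne_zero_iff.2 fun l _ => M.x0 t l)
    split_ifs
    · exact one_ne_zero
    · exact hPS.y0 t
  have hcop : ∀ t, ∃ α ∈ M.A t, ∃ β ∈ M.A t, α * h' t true + β * h' t false = 1 := by
    intro t
    have key : IsCoprime (∏ l ∈ s true, (⟨M.x t l, M.xA t l⟩ : M.A t))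
        ((⟨y t, hPS.yA t⟩ : M.A t) * ∏ l ∈ s false, (⟨M.x t l, M.xA t l⟩ : M.A t)) := by
      refine IsCoprime.prod_left fun l hl => IsCoprime.mul_right ?_
        (IsCoprime.prod_right fun m hm => ?_)
      · have hl' : 0 < c l := by simpa [s] using hl
        have h1 : SepY M y l := by
          by_contra h2
          refine hno (l, none) ⟨wp_pos.2 ⟨hl', ?_⟩, h2⟩
          change -(p : ℤ) < 0
          omega
        obtain ⟨α, hα, β, hβ, h3⟩ := h1 t
        exact ⟨⟨α, hα⟩, ⟨β, hβ⟩, Subtype.ext h3⟩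
      · have hl' : 0 < c l := by simpa [s] using hl
        have hm' : c m < 0 := by simpa [s] using hm
        have h1 : Sep M l m := by
          by_contra h2
          exact hno (l, some m) ⟨wp_pos.2 ⟨hl', hm'⟩, h2⟩
        obtain ⟨α, hα, β, hβ, h3⟩ := h1 t
        exact ⟨⟨α, hα⟩, ⟨β, hβ⟩, Subtype.ext h3⟩
    obtain ⟨α, β, hαβ⟩ := key
    refine ⟨α, α.2, β, β.2, ?_⟩
    have := congrArg (Subtype.val : M.A t → N) hαβ
    simpa [h'] using this
  obtain ⟨M', hA, hx, hH⟩ := exists_refine M h' hmem hne (by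
    intro t V hV
    obtain ⟨α, hα, β, hβ, h1⟩ := hcop t
    have hV1 : h' t true ∈ V := hV _ (hmem _ _)
    have hV2 : h' t false ∈ V := hV _ (hmem _ _)
    by_contra hcon
    push Not at hcon
    have h2 : ∀ e, V.valuation (h' t e) < 1 := by
      intro e
      have h3 : (h' t e)⁻¹ ∉ V := hcon e
      rw [← V.valuation_le_one_iff, map_inv₀, not_le] at h3
      have h4 : V.valuation (h' t e) ≠ 0 := by
        rw [ne_eq, map_eq_zero]; exact hne t e
      exact (one_lt_inv₀ (zero_lt_iff.2 h4)).1 h3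
    have h5 : V.valuation (α * h' t true + β * h' t false) < 1 := by
      refine Valuation.map_add_lt _ ?_ ?_
      · rw [map_mul]
        exact (mul_le_of_le_one_left' ((V.valuation_le_one_iff _).2 (hV _ hα))).trans_lt (h2 _)
      · rw [map_mul]
        exact (mul_le_of_le_one_left' ((V.valuation_le_one_iff _).2 (hV _ hβ))).trans_lt (h2 _)
    rw [h1, map_one] at h5
    exact lt_irrefl _ h5)
  have hle : ∀ q : T × Bool, M.A q.1 ≤ M'.A q := by
    intro q
    rw [hA]
    exact le_rA M h' q
  have hAq : ∀ q : T × Bool, M'.A q = adj (M.A q.1) (h' q.1 q.2)⁻¹ := by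
    intro q
    rw [hA]
    rfl
  have hxq : ∀ (q : T × Bool), M'.x q = M.x q.1 := by
    intro q
    rw [hx]
  have hinvQ : ∀ q : T × Bool, (h' q.1 q.2)⁻¹ ∈ Q := by
    intro q
    change ((if q.2 then 1 else y q.1) * ∏ l ∈ s q.2, M.x q.1 l)⁻¹ ∈ Q
    rw [mul_inv]
    refine Q.mul_mem ?_ (inv_prod_mem _ _ fun i => hPS.xQ q.1 i)
    split_ifs
    · rw [inv_one]; exact Q.one_mem
    · exact hPS.yQ q.1
  refine ⟨T × Bool, I, inferInstance, inferInstance, M', fun q => y q.1, c, μ, Γ, Prod.fst,
    fun i' i => if i' = i then 1 else 0, ?_, ?_, ?_, ?_, ?_, ?_⟩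
  · refine ⟨fun q => hle q (hPS.yA q.1), fun q => hPS.y0 q.1, fun q => hle q (hPS.hA q.1), ?_, ?_,
      fun q => hPS.yQ q.1, ?_, ?_, ?_⟩
    · intro q
      rw [hAq]
      exact adj_le (hPS.AQ q.1) (hinvQ q)
    · intro q i
      rw [hxq]
      exact hPS.xQ q.1 i
    · intro q
      rw [hxq]
      exact hPS.eq q.1
    · intro q
      rw [hxq, hAq]
      refine (hPS.snc q.1).loc ?_ (hmem q.1 q.2) (hne q.1 q.2)
      rintro (_ | i)
      · exact hPS.yA q.1
      · exact M.xA q.1 i
    · intro q κ _ _ φ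
      obtain ⟨v, hv⟩ := hPS.ln q.1 κ (φ.comp (Subalgebra.inclusion (hle q)))
      obtain ⟨D, hD⟩ := ext_loc' (hAq q) (hle q) (hmem q.1 q.2) (hne q.1 q.2) φ v.D
      rw [hxq]
      refine ⟨⟨D, v.e, ?_⟩, ?_⟩
      · intro i hi
        have hi' : ox (y q.1) (M.x q.1) i ∈ M.A q.1 := by
          cases i with
          | none => exact hPS.yA q.1
          | some i => exact M.xA q.1 i
        rw [hD _ hi' hi]
        exact v.hx i hi'
      · intro h0
        apply hv
        rw [← h0]
        unfold om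
        simp only
        rw [hD _ (hPS.hA q.1) (hle q (hPS.hA q.1))]
        rfl
  · intro q z hz
    obtain ⟨α, hα, β, hβ, h1⟩ := hL q.1 z hz
    exact ⟨α, hle q hα, β, hle q hβ, h1⟩
  · intro a q
    obtain ⟨w, hw0, hw, hw', h1⟩ := hF a q.1
    refine ⟨w, hw0, hle q hw, hle q hw', ?_⟩
    rw [hxq]
    exact h1
  · rintro ⟨t, e⟩
    have hu : ∀ l ∈ s e, (M'.x (t, e) l)⁻¹ ∈ M'.A (t, e) := by
      intro l hl
      rw [hxq]
      have h1 : (M.x t l)⁻¹ = ((if e then 1 else y t) * ∏ m ∈ (s e).erase l, M.x t m) *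
          (h' t e)⁻¹ := by
        have h2 : h' t e = (if e then 1 else y t) * (M.x t l * ∏ m ∈ (s e).erase l, M.x t m) := by
          rw [Finset.mul_prod_erase _ _ hl]
        rw [h2]
        have h3 := M.x0 t l
        have h4 : ∏ m ∈ (s e).erase l, M.x t m ≠ 0 :=
          Finset.prod_ne_zero_iff.2 fun l _ => M.x0 t l
        have h5 : (if e then 1 else y t) ≠ 0 := by
          split_ifs
          · exact one_ne_zero
          · exact hPS.y0 t
        field_simp
      change (M.x t l)⁻¹ ∈ _
      rw [h1]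
      refine (M'.A (t, e)).mul_mem (hle (t, e) ((M.A t).mul_mem ?_
        ((M.A t).prod_mem fun m _ => M.xA t m))) ?_
      · split_ifs
        · exact (M.A t).one_mem
        · exact hPS.yA t
      · rw [hAq]
        exact self_mem_adj _ _
    cases e
    · right
      refine ⟨?_, ?_⟩
      · intro l
        by_cases hl : c l < 0
        · right
          exact hu l (by simpa [s] using hl)
        · left
          omega
      · have h1 : (y t)⁻¹ = (∏ m ∈ s false, M.x t m) * (h' t false)⁻¹ := by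
          have h2 : h' t false = y t * (∏ m ∈ s false, M.x t m) := by
            simp [h']
          rw [h2]
          have h3 := hPS.y0 t
          have h4 : ∏ m ∈ s false, M.x t m ≠ 0 :=
            Finset.prod_ne_zero_iff.2 fun l _ => M.x0 t l
          field_simp
        change (y t)⁻¹ ∈ _
        rw [h1]
        refine (M'.A (t, false)).mul_mem (hle (t, false) ((M.A t).prod_mem fun m _ => M.xA t m)) ?_
        rw [hAq]
        exact self_mem_adj _ _
    · left
      intro l
      by_cases hl : 0 < c l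
      · right
        exact hu l (by simpa [s] using hl)
      · left
        omega
  · refine ⟨hle, ?_, ?_, ?_⟩
    · intro q i
      rw [hxq, Finset.prod_eq_single i]
      · simp
      · intro j _ hj
        simp [hj]
      · intro hi
        exact absurd (Finset.mem_univ i) hi
    · intro i' i
      split_ifs
      · exact zero_le_one
      · exact le_rfl
    · intro q κ _ _ φ v
      obtain ⟨D, hD⟩ := ext_loc' (hAq q) (hle q) (hmem q.1 q.2) (hne q.1 q.2) φ v.D
      rw [hxq]
      refine ⟨⟨D, v.e, ?_⟩, ?_, ?_⟩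
      · intro i hi
        have hi' : ox (y q.1) (M.x q.1) i ∈ M.A q.1 := by
          cases i with
          | none => exact hPS.yA q.1
          | some i => exact M.xA q.1 i
        rw [hD _ hi' hi]
        exact v.hx i hi'
      · intro a ha
        exact hD a ha (hle q ha)
      · intro i
        simp
  · intro i'
    simp

end fin

section main

variable {k N : Type u} [Field k] [PerfectField k] [Field N] [Algebra k N] {p : ℕ} [Fact p.Prime]
  [CharP k p] {G : Type}

theorem aux (hcp : WD_cp.{u}) (hpbl : WQ_pbl.{u}) (htbl : WQ_tbl.{u}) (F : N)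
    (Q : Subalgebra k N) (g : G → N) : ∀ (W n : ℕ) {T I : Type} [Finite T] [Fintype I]
    (M : LM (⊥ : Subalgebra k N) ⊤ T I) (y h : T → N) (c μ : I → ℤ) (Γ : G → I → ℤ),
    PS p M F Q y h c μ → Lq M Q → Fn M g Γ →
    (∀ q, BadP p M y c q → wp p c q ≤ W) →
    {q | BadP p M y c q ∧ wp p c q = W}.ncard ≤ n →
    ∃ (T' I' : Type) (_ : Finite T') (_ : Fintype I') (M' : LM (⊥ : Subalgebra k N) ⊤ T' I')
    (y' : T' → N) (c' μ' : I' → ℤ) (Γ' : G → I' → ℤ) (π : T' → T) (Θ : I' → I → ℤ),
    PS p M' F Q y' (fun t' => h (π t')) c' μ' ∧ Lq M' Q ∧ Fn M' g Γ' ∧ Fin2 M' y' c' ∧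
    OvP M y M' y' π Θ ∧ ∀ i', c' i' + p * μ' i' = ∑ i, Θ i' i * (c i + p * μ i) := by
  classical
  have hp0 : 0 < p := (Fact.out : p.Prime).pos
  intro W
  induction W with
  | zero =>
    intro n T I _ _ M y h c μ Γ hPS hL hF hW hn
    refine fin2 M F Q y h c μ g Γ hp0 hPS hL hF ?_
    intro q hq
    have := hW q hq
    have := hq.1
    omega
  | succ W ihW =>
    intro n
    induction n with
    | zero =>
      intro T I _ _ M y h c μ Γ hPS hL hF hW hn
      refine ihW _ M y h c μ Γ hPS hL hF ?_ le_rfl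
      intro q hq
      have h1 := hW q hq
      rcases h1.lt_or_eq with h2 | h2
      · omega
      · exfalso
        have h3 : {q | BadP p M y c q ∧ wp p c q = W + 1} = ∅ := by
          rw [← Set.ncard_eq_zero (Set.toFinite _)]
          omega
        have h4 : q ∈ {q | BadP p M y c q ∧ wp p c q = W + 1} := ⟨hq, h2⟩
        rw [h3] at h4
        exact h4
    | succ n ihn =>
      intro T I _ _ M y h c μ Γ hPS hL hF hW hn
      by_cases hex : ∃ q, BadP p M y c q ∧ wp p c q = W + 1
      · obtain ⟨⟨i, o⟩, hb, hwt⟩ := hex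
        obtain ⟨hi, ho⟩ := wp_pos.1 hb.1
        simp only at hi ho
        -- the blowup
        have hblow : ∃ (M' : LM (⊥ : Subalgebra k N) ⊤ (T × Bool) (Option I))
            (y' : T × Bool → N) (c' : Option I → ℤ) (μ' : Option I → ℤ)
            (Γ' : G → Option I → ℤ) (Θ : Option I → I → ℤ),
            PS p M' F Q y' (fun q => h q.1) c' μ' ∧ Lq M' Q ∧ Fn M' g Γ' ∧
            c' none = c i + cc p c o ∧ (∀ l, c' (some l) = c l) ∧
            (∀ l o, SS M y l o → SS M' y' (some l) (o.map some)) ∧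
            SS M' y' (some i) (o.map some) ∧
            (∀ o, SS M y i o → SS M' y' none (o.map some)) ∧
            (∀ l, SS M y l o → Sep M' none (some l)) ∧
            OvP M y M' y' Prod.fst Θ ∧
            ∀ i', c' i' + p * μ' i' = ∑ i, Θ i' i * (c i + p * μ i) := by
          cases o with
          | none =>
            obtain ⟨M', y', μ', Γ', Θ, h1, h2, h3, h4, h5, h6, h7, h8, hov, hexp⟩ :=
              hpbl p k N T I G M F Q y h c μ g Γ hPS hL hF i hi
                (hcp p k N T I M F Q y h c μ hPS i hi)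
            refine ⟨M', y', _, μ', Γ', Θ, h1, h2, h3, ?_, fun l => rfl, ?_, h4, ?_, h8, hov, hexp⟩
            · change c i - (p : ℤ) = c i + -(p : ℤ)
              ring
            · rintro l (_ | l') h9
              · exact h6 l h9
              · exact h5 l l' h9
            · rintro (_ | l') h9
              · exact absurd h9 hb.2
              · exact h7 l' h9
          | some j =>
            have hij : i ≠ j := by
              rintro rfl
              change c i < 0 at ho
              omega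
            obtain ⟨M', y', μ', Γ', Θ, h1, h2, h3, h4, h5, h6, h7, h8, h9, hov, hexp⟩ :=
              htbl p k N T I G M F Q y h c μ g Γ hPS hL hF i j hij
            refine ⟨M', y', _, μ', Γ', Θ, h1, h2, h3, rfl, fun l => rfl, ?_, h4, ?_, ?_, hov, hexp⟩
            · rintro l (_ | l') h10
              · exact h8 l h10
              · exact h5 l l' h10
            · rintro (_ | l') h10
              · exact h9 h10
              · exact h6 l' h10
            · intro l h10
              exact h7 l h10.symm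
        obtain ⟨M', y', c', μ', Γ', Θ, hPS', hL', hF', hc', hc, H1, H2, H3, H4, hov, hexp⟩ :=
          hblow
        have key := key M M' y y' c c' i o hc' hc H1 H2 H3 H4 (W + 1) hW hb
        have hA1 : ∀ q, BadP p M' y' c' q → wp p c' q ≤ W + 1 := by
          intro q hq
          rcases key q hq with h1 | ⟨l, l', h1, h2, h3, h4⟩
          · exact h1.le
          · rw [← h3]
            exact hW _ h2
        have hA2 : {q | BadP p M' y' c' q ∧ wp p c' q = W + 1}.ncard ≤ n := by
          have h5 : {q | BadP p M' y' c' q ∧ wp p c' q = W + 1} ⊆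
              (fun q : I × Option I => (some q.1, q.2.map some)) ''
                ({q | BadP p M y c q ∧ wp p c q = W + 1} \ {(i, o)}) := by
            rintro q ⟨hq, hq'⟩
            rcases key q hq with h1 | ⟨l, l', h1, h2, h3, h4⟩
            · omega
            · exact ⟨(l, l'), ⟨⟨h2, by rw [h3, hq']⟩, h4⟩, h1.symm⟩
          have h6 := Set.ncard_le_ncard h5 (Set.toFinite _)
          have h7 := Set.ncard_image_le (f := fun q : I × Option I => (some q.1, q.2.map some))
            (s := {q | BadP p M y c q ∧ wp p c q = W + 1} \ {(i, o)}) (Set.toFinite _)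
          have h8 := Set.ncard_sdiff_singleton_lt_of_mem
            (s := {q | BadP p M y c q ∧ wp p c q = W + 1}) (a := (i, o)) ⟨hb, hwt⟩
            (Set.toFinite _)
          omega
        obtain ⟨T2, I2, fT2, fI2, M2, y2, c2, μ2, Γ2, π2, Θ2, hPS2, hL2, hF2, hfin2, hov2, hexp2⟩ :=
          ihn M' y' (fun q => h q.1) c' μ' Γ' hPS' hL' hF' hA1 hA2
        exact ⟨T2, I2, fT2, fI2, M2, y2, c2, μ2, Γ2, fun t => (π2 t).1,
            fun i'' i => ∑ i', Θ2 i'' i' * Θ i' i, hPS2, hL2, hF2, hfin2, OvP.trans hov hov2,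
            fun i'' => exp_trans hexp hexp2 i''⟩
      · refine ihW _ M y h c μ Γ hPS hL hF ?_ le_rfl
        intro q hq
        have h1 := hW q hq
        rcases h1.lt_or_eq with h2 | h2
        · omega
        · exact absurd ⟨q, hq, h2⟩ hex

end main

theorem main (hcp : WD_cp.{u}) (hpbl : WQ_pbl.{u}) (htbl : WQ_tbl.{u}) : WQ_ppr.{u} := by
  classical
  intro p _ k N _ _ _ _ _ T I G _ _ M F Q y h c μ g Γ hPS hL hF
  refine aux hcp hpbl htbl F Q g (Finset.univ.sup (wp p c)) _ M y h c μ Γ hPS hL hF ?_ le_rfl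
  intro q _
  exact Finset.le_sup (Finset.mem_univ q)

end Pool.Agent.TH90.WQ.Ppr
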